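import Pool.Agent.Helper85.ProP.TopStmts
import Pool.Agent.Helper85.ProP.Logic

/-!
# Statements for the (virtually) nilpotent-by-abelian case

Finitely generated torsion-free pro-p groups with decidable elementary theory.
All groups are compact, Hausdorff and totally disconnected; `PP p G` says that all open normal
subgroups have `p`-power index.
-/

set_option autoImplicit false

namespace Pool.Agent.Helper30.ProP

open Pool.Agent.Helper85.ProP

section Defs

variable {G : Type*} [Group G] [TopologicalSpace G]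

/-- all open normal subgroups have `p`-power index -/
def PP (p : ℕ) (G : Type*) [Group G] [TopologicalSpace G] : Prop :=
  ∀ U : Subgroup G, U.Normal → IsOpen (U : Set G) → ∃ n : ℕ, U.index = p ^ n

/-- `G` is topologically finitely generated -/
def FGG (G : Type*) [Group G] [TopologicalSpace G] [IsTopologicalGroup G] : Prop :=
  ∃ S : Finset G, (Subgroup.closure (S : Set G)).topologicalClosure = ⊤

/-- `L` is topologically finitely generated modulo `K` -/
def FGmod (K L : Subgroup G) : Prop :=
  ∃ F : Finset G, (F : Set G) ⊆ (L : Set G) ∧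
    ∀ H : Subgroup G, IsClosed (H : Set G) → K ≤ H → (F : Set G) ⊆ (H : Set G) → L ≤ H

/-- `K` is finitely generated as a closed normal subgroup of `G` -/
def NFG (K : Subgroup G) : Prop :=
  ∃ F : Finset G, (F : Set G) ⊆ (K : Set G) ∧
    ∀ H : Subgroup G, H.Normal → IsClosed (H : Set G) → (F : Set G) ⊆ (H : Set G) → K ≤ H

/-- all closed normal subgroups containing `K` are finitely generated as closed normal
subgroups -/
def MaxN (K : Subgroup G) : Prop :=
  ∀ K' : Subgroup G, K'.Normal → IsClosed (K' : Set G) → K ≤ K' → NFG K'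

/-- modulo `K`, every closed subgroup of `L` is topologically generated by `r` elements -/
def RkMod (K L : Subgroup G) (r : ℕ) : Prop :=
  ∀ H : Subgroup G, IsClosed (H : Set G) → ∃ t : Fin r → G, (∀ i, t i ∈ H ∧ t i ∈ L) ∧
    ∀ M : Subgroup G, IsClosed (M : Set G) → H ⊓ K ≤ M → (∀ i, t i ∈ M) → H ⊓ L ≤ M

end Defs

/-! ### packet A: finite presentability -/

/-- A1: if `L` is finitely generated as a closed normal subgroup and `L / K` is abelian and
topologically finitely generated, then `K` is finitely generated as a closed normal subgroup. -/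
def StmtF1.{u} : Prop :=
  ∀ (p : ℕ) [Fact p.Prime] (G : Type u) [Group G] [TopologicalSpace G] [IsTopologicalGroup G]
    [CompactSpace G] [T2Space G] [TotallyDisconnectedSpace G], PP p G → FGG G →
    ∀ K L : Subgroup G, K.Normal → IsClosed (K : Set G) → L.Normal → IsClosed (L : Set G) →
      K ≤ L → (∀ a ∈ L, ∀ b ∈ L, cm a b ∈ K) → FGmod K L → NFG L → NFG K

/-- A2: the same for `MaxN`. -/
def StmtMax.{u} : Prop :=
  ∀ (p : ℕ) [Fact p.Prime] (G : Type u) [Group G] [TopologicalSpace G] [IsTopologicalGroup G]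
    [CompactSpace G] [T2Space G] [TotallyDisconnectedSpace G], PP p G → FGG G →
    ∀ K L : Subgroup G, K.Normal → IsClosed (K : Set G) → L.Normal → IsClosed (L : Set G) →
      K ≤ L → (∀ a ∈ L, ∀ b ∈ L, cm a b ∈ K) → FGmod K L → MaxN L → MaxN K

/-! ### packet B: ranks -/

/-- B: topologically finitely generated abelian sections have finite rank. -/
def StmtRk.{u} : Prop :=
  ∀ (p : ℕ) [Fact p.Prime] (G : Type u) [Group G] [TopologicalSpace G] [IsTopologicalGroup G]
    [CompactSpace G] [T2Space G] [TotallyDisconnectedSpace G], PP p G →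
    ∀ K L : Subgroup G, K.Normal → IsClosed (K : Set G) → L.Normal → IsClosed (L : Set G) →
      K ≤ L → (∀ a ∈ L, ∀ b ∈ L, cm a b ∈ K) → FGmod K L → ∃ r : ℕ, RkMod K L r

/-! ### packet C: the module -/

/-- C: Let `L / K` be an abelian closed section, `L` finitely generated as a closed normal
subgroup, on which `G` acts through an abelian quotient, and let `W ≤ L` be a closed subgroup
whose image in `L / K` is torsion-free. Either the image of `W` is finitely generated, or `L / K` is
a finitely generated module over `ℤ_p[[X_1, …, X_d]]` with a suitable prime in its support. -/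
def StmtMod.{u} : Prop :=
  ∀ (p : ℕ) [Fact p.Prime] (G : Type u) [Group G] [TopologicalSpace G] [IsTopologicalGroup G]
    [CompactSpace G] [T2Space G] [TotallyDisconnectedSpace G], PP p G →
    ∀ (d : ℕ) (x : Fin d → G), (Subgroup.closure (Set.range x)).topologicalClosure = ⊤ →
    ∀ K L : Subgroup G, K.Normal → IsClosed (K : Set G) → L.Normal → IsClosed (L : Set G) →
      K ≤ L → (∀ a ∈ L, ∀ b ∈ L, cm a b ∈ K) → (∀ g h : G, ∀ a ∈ L, cm (cm g h) a ∈ K) →
      NFG L →
    ∀ W : Subgroup G, IsClosed (W : Set G) → W ≤ L → (∀ w ∈ W, w ^ p ∈ K → w ∈ K) →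
    FGmod (W ⊓ K) W ∨
    ∃ (M : Type u) (_ : AddCommGroup M) (_ : Module (MvPowerSeries (Fin d) ℤ_[p]) M)
      (_ : Module.Finite (MvPowerSeries (Fin d) ℤ_[p]) M) (π : G → M),
      (∀ a ∈ L, ∀ b ∈ L, π (a * b) = π a + π b) ∧
      (∀ m : M, ∃ a ∈ L, π a = m) ∧
      (∀ a ∈ L, (π a = 0 ↔ a ∈ K)) ∧
      (∀ h : G, ∃ q : Fin d → ℤ_[p], ∀ a ∈ L, π (h * a * h⁻¹) = rhoS p d q • π a) ∧
      (∀ q : Fin d → ℤ_[p], ∃ h : G, ∀ a ∈ L, π (h * a * h⁻¹) = rhoS p d q • π a) ∧
      ∃ P : Ideal (MvPowerSeries (Fin d) ℤ_[p]), P.IsPrime ∧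
        Module.annihilator (MvPowerSeries (Fin d) ℤ_[p]) M ≤ P ∧
        (p : MvPowerSeries (Fin d) ℤ_[p]) ∉ P ∧
        ¬ Module.Finite ℤ_[p] (MvPowerSeries (Fin d) ℤ_[p] ⧸ P)

/-! ### packet E: definable open subgroups -/

/-- E1: the commutator subgroup consists of the products of `d` commutators (so it is closed and
definable). -/
def StmtWidth.{u} : Prop :=
  ∀ (p : ℕ) [Fact p.Prime] (G : Type u) [Group G] [TopologicalSpace G] [IsTopologicalGroup G]
    [CompactSpace G] [T2Space G] [TotallyDisconnectedSpace G], PP p G →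
    ∀ (d : ℕ) (x : Fin d → G), (Subgroup.closure (Set.range x)).topologicalClosure = ⊤ →
    ∀ g ∈ (commutator G).topologicalClosure, ∃ y : Fin d → G,
      g = (List.ofFn fun i => cm (x i) (y i)).prod

/-- E2: the definable open normal subgroups are a neighbourhood basis of `1`. -/
def StmtFrat.{u} : Prop :=
  ∀ (p : ℕ) [Fact p.Prime] (G : Type u) [Group G] [TopologicalSpace G] [IsTopologicalGroup G]
    [CompactSpace G] [T2Space G] [TotallyDisconnectedSpace G], PP p G → FGG G →
    ∀ U : Subgroup G, IsOpen (U : Set G) → ∃ W : Subgroup G, W.Normal ∧ IsOpen (W : Set G) ∧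
      W ≤ U ∧ D1 0 (fun _ : ℕ → G => (· ∈ W))

/-! ### packet F: relativisation -/

/-- F: definable subgroups inherit decidability. -/
def StmtRel.{u} : Prop :=
  ∀ (G : Type u) [Group G] (W : Subgroup G), D1 0 (fun _ : ℕ → G => (· ∈ W)) →
    DecTh G → DecTh W

/-! ### packet G: open subgroups -/

/-- G: open normal subgroups. -/
def StmtOpen.{u} : Prop :=
  ∀ (p : ℕ) [Fact p.Prime] (G : Type u) [Group G] [TopologicalSpace G] [IsTopologicalGroup G]
    [CompactSpace G] [T2Space G] [TotallyDisconnectedSpace G], PP p G →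
    ∀ W : Subgroup G, IsOpen (W : Set G) → W.Normal →
      PP p W ∧ (FGG G → FGG W) ∧ (FinRank W → FinRank G)

end Pool.Agent.Helper30.ProP
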