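import Pool.Agent.Helper30.ProP.Goals
import Pool.Agent.Helper85.ProP.GSys

/-!
# The definable series of a nilpotent-by-abelian group

`DD j` is the `j`-th term of the upper central series of `G` relative to the commutators of `G`,
`LL j / DD j` is the centre of `DD (j+1) / DD j`.
-/

set_option autoImplicit false
set_option linter.unusedSectionVars false

namespace Pool.Agent.Helper30.ProP

open Pool.Agent.Helper85.ProP Function

section Alg

variable {G : Type*} [Group G]

/-- the upper central series relative to commutators, as a predicate -/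
def inD : ℕ → G → Prop
  | 0, g => g = 1
  | j + 1, g => ∀ a b : G, inD j (cm g (cm a b))

lemma cm_mul_left (g h c : G) : cm (g * h) c = g * cm h c * g⁻¹ * cm g c := by
  unfold cm; group

lemma cm_inv_left (g c : G) : cm g⁻¹ c = g⁻¹ * (cm g c)⁻¹ * g := by
  unfold cm; group

lemma cm_conj (x g c : G) : cm (x * g * x⁻¹) c = x * cm g (x⁻¹ * c * x) * x⁻¹ := by
  unfold cm; group

lemma cm_conj' (x g c : G) : cm (x * g * x⁻¹) (x * c * x⁻¹) = x * cm g c * x⁻¹ := by
  unfold cm; group

lemma conj_cm (x a b : G) : x⁻¹ * cm a b * x = cm (x⁻¹ * a * x) (x⁻¹ * b * x) := by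
  unfold cm; group

lemma cm_inv_eq (a b : G) : (cm a b)⁻¹ = cm b a := by
  unfold cm; group

lemma cm_one_left (c : G) : cm (1 : G) c = 1 := by unfold cm; group

lemma cm_one_right (c : G) : cm c (1 : G) = 1 := by unfold cm; group

/-- the predicate defines normal subgroups -/
lemma inD_aux (j : ℕ) : inD j (1 : G) ∧ (∀ g h : G, inD j g → inD j h → inD j (g * h)) ∧
    (∀ g : G, inD j g → inD j g⁻¹) ∧ ∀ x g : G, inD j g → inD j (x * g * x⁻¹) := by
  induction j with
  | zero =>
    refine ⟨rfl, ?_, ?_, ?_⟩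
    · rintro g h hg hh
      show g * h = 1
      rw [show g = 1 from hg, show h = 1 from hh, one_mul]
    · rintro g hg
      show g⁻¹ = 1
      rw [show g = 1 from hg, inv_one]
    · rintro x g hg
      show x * g * x⁻¹ = 1
      rw [show g = 1 from hg]; group
  | succ j ih =>
    obtain ⟨h1, h2, h3, h4⟩ := ih
    refine ⟨?_, ?_, ?_, ?_⟩
    · intro a b
      rw [cm_one_left]; exact h1
    · intro g h hg hh a b
      rw [cm_mul_left]
      exact h2 _ _ (h4 _ _ (hh a b)) (hg a b)
    · intro g hg a b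
      rw [cm_inv_left]
      have := h4 g⁻¹ _ (h3 _ (hg a b))
      rwa [inv_inv] at this
    · intro x g hg a b
      rw [cm_conj, conj_cm]
      exact h4 _ _ (hg _ _)

/-- the upper central series relative to commutators -/
def DD (G : Type*) [Group G] (j : ℕ) : Subgroup G where
  carrier := {g | inD j g}
  one_mem' := (inD_aux j).1
  mul_mem' := fun {a b} ha hb => (inD_aux j).2.1 a b ha hb
  inv_mem' := fun {a} ha => (inD_aux j).2.2.1 a ha

lemma mem_DD {j : ℕ} {g : G} : g ∈ DD G j ↔ inD j g := Iff.rfl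

lemma mem_DD_zero {g : G} : g ∈ DD G 0 ↔ g = 1 := Iff.rfl

lemma mem_DD_succ {j : ℕ} {g : G} : g ∈ DD G (j + 1) ↔ ∀ a b : G, cm g (cm a b) ∈ DD G j := Iff.rfl

instance DD_normal (j : ℕ) : (DD G j).Normal :=
  ⟨fun g hg x => (inD_aux j).2.2.2 x g hg⟩

lemma cm_mem_of_left {K : Subgroup G} [K.Normal] {a : G} (ha : a ∈ K) (b : G) : cm a b ∈ K := by
  have : cm a b = a * (b * a⁻¹ * b⁻¹) := by unfold cm; group
  rw [this]
  exact K.mul_mem ha (Subgroup.Normal.conj_mem inferInstance _ (K.inv_mem ha) b)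

lemma cm_mem_of_right {K : Subgroup G} [K.Normal] {b : G} (hb : b ∈ K) (a : G) : cm a b ∈ K := by
  rw [← cm_inv_eq]
  exact K.inv_mem (cm_mem_of_left hb a)

lemma DD_le_succ (j : ℕ) : DD G j ≤ DD G (j + 1) := fun _ hg _ _ => cm_mem_of_left hg _

/-- the preimage of the centre of `DD (j+1) / DD j` -/
def LL (G : Type*) [Group G] (j : ℕ) : Subgroup G where
  carrier := {a | a ∈ DD G (j + 1) ∧ ∀ b ∈ DD G (j + 1), cm a b ∈ DD G j}
  one_mem' := ⟨Subgroup.one_mem _, fun b _ => by rw [cm_one_left]; exact Subgroup.one_mem _⟩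
  mul_mem' := fun {a b} ha hb => ⟨Subgroup.mul_mem _ ha.1 hb.1, fun c hc => by
    rw [cm_mul_left]
    exact Subgroup.mul_mem _ (Subgroup.Normal.conj_mem inferInstance _ (hb.2 c hc) a) (ha.2 c hc)⟩
  inv_mem' := fun {a} ha => ⟨Subgroup.inv_mem _ ha.1, fun c hc => by
    rw [cm_inv_left]
    have := Subgroup.Normal.conj_mem (H := DD G j) inferInstance _
      (Subgroup.inv_mem _ (ha.2 c hc)) a⁻¹
    rwa [inv_inv] at this⟩

lemma mem_LL {j : ℕ} {a : G} :
    a ∈ LL G j ↔ a ∈ DD G (j + 1) ∧ ∀ b ∈ DD G (j + 1), cm a b ∈ DD G j := Iff.rfl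

instance LL_normal (j : ℕ) : (LL G j).Normal :=
  ⟨fun g hg x => ⟨Subgroup.Normal.conj_mem inferInstance _ hg.1 x, fun b hb => by
    rw [cm_conj]
    have h1 := Subgroup.Normal.conj_mem (H := DD G (j + 1)) inferInstance _ hb x⁻¹
    rw [inv_inv] at h1
    exact Subgroup.Normal.conj_mem inferInstance _ (hg.2 _ h1) x⟩⟩

lemma DD_le_LL (j : ℕ) : DD G j ≤ LL G j := fun _ hg => ⟨DD_le_succ j hg, fun _ _ =>
  cm_mem_of_left hg _⟩

lemma LL_le (j : ℕ) : LL G j ≤ DD G (j + 1) := fun _ hg => hg.1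

lemma LL_comm (j : ℕ) : ∀ a ∈ LL G j, ∀ b ∈ LL G j, cm a b ∈ DD G j :=
  fun _ ha b hb => ha.2 b hb.1

lemma LL_act (j : ℕ) : ∀ g h : G, ∀ a ∈ LL G j, cm (cm g h) a ∈ DD G j := by
  intro g h a ha
  rw [← cm_inv_eq]
  exact Subgroup.inv_mem _ (ha.1 g h)

/-! ### definability -/

lemma d_inD (j : ℕ) : D1 0 (fun _ : ℕ → G => inD j) where
  dep _ _ _ _ := rfl
  df := by
    induction j with
    | zero =>
      intro n _ s hs
      exact DF.eq hs (TF.one n)
    | succ j ih =>
      intro n _ s hs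
      show DF n (fun v => ∀ a b : G, inD j (cm (s v) (cm a b)))
      refine DF.all (R := fun v a => ∀ b, inD j (cm (s v) (cm a b))) ?_ ?_
      · intro v z w; rw [hs.upd le_rfl]
      · refine DF.all (R := fun v b => inD j (cm (s v) (cm (v n) b))) ?_ ?_
        · intro v z w; rw [hs.upd (Nat.le_succ n), update_of_ne (by omega)]
        · exact ih _ (Nat.zero_le _) _ (hs.succ.succ.cm ((TF.last n).succ.cm (TF.last _)))

lemma d_DD (j : ℕ) : D1 0 (fun _ : ℕ → G => (· ∈ DD G j)) := d_inD j

lemma d_LL (j : ℕ) : D1 0 (fun _ : ℕ → G => (· ∈ LL G j)) where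
  dep _ _ _ _ := rfl
  df n _ s hs := by
    refine DF.of_iff (P := fun v => s v ∈ DD G (j + 1) ∧
      ∀ b, b ∈ DD G (j + 1) → cm (s v) b ∈ DD G j) ?_ (fun v => mem_LL.symm)
    refine ((d_DD (j + 1)).df n (Nat.zero_le _) s hs).and
      (DF.all (R := fun v b => b ∈ DD G (j + 1) → cm (s v) b ∈ DD G j) ?_ ?_)
    · intro v z w; rw [hs.upd le_rfl]
    · exact ((d_DD (j + 1)).df _ (Nat.zero_le _) _ (TF.last n)).imp
        ((d_DD j).df _ (Nat.zero_le _) _ (hs.succ.cm (TF.last n)))

end Alg

/-! ### topology -/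

section Top

variable {G : Type*} [Group G] [TopologicalSpace G] [IsTopologicalGroup G]

lemma continuous_cm_left (c : G) : Continuous fun g : G => cm g c := by
  unfold cm; fun_prop

lemma continuous_cm_right (c : G) : Continuous fun g : G => cm c g := by
  unfold cm; fun_prop

lemma isClosed_DD [T1Space G] (j : ℕ) : IsClosed (DD G j : Set G) := by
  induction j with
  | zero =>
    have : (DD G 0 : Set G) = {1} := by
      ext g; exact mem_DD_zero
    rw [this]; exact isClosed_singleton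
  | succ j ih =>
    have : (DD G (j + 1) : Set G) =
        ⋂ a : G, ⋂ b : G, (fun g : G => cm g (cm a b)) ⁻¹' (DD G j : Set G) := by
      ext g
      simp only [Set.mem_iInter, Set.mem_preimage, SetLike.mem_coe]
      exact mem_DD_succ
    rw [this]
    exact isClosed_iInter fun a => isClosed_iInter fun b => ih.preimage (continuous_cm_left _)

lemma isClosed_LL [T1Space G] (j : ℕ) : IsClosed (LL G j : Set G) := by
  have : (LL G j : Set G) = (DD G (j + 1) : Set G) ∩
      ⋂ b : G, ⋂ _ : b ∈ DD G (j + 1), (fun g : G => cm g b) ⁻¹' (DD G j : Set G) := by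
    ext g
    simp only [Set.mem_inter_iff, Set.mem_iInter, Set.mem_preimage, SetLike.mem_coe]
    exact mem_LL
  rw [this]
  exact (isClosed_DD _).inter (isClosed_iInter fun b => isClosed_iInter fun _ =>
    (isClosed_DD j).preimage (continuous_cm_left _))

/-- the closure of the commutator subgroup -/
def NN (G : Type*) [Group G] [TopologicalSpace G] [IsTopologicalGroup G] : Subgroup G :=
  (commutator G).topologicalClosure

lemma isClosed_NN : IsClosed (NN G : Set G) := Subgroup.isClosed_topologicalClosure _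

instance NN_normal : (NN G).Normal := Subgroup.is_normal_topologicalClosure _

lemma cm_mem_NN (a b : G) : cm a b ∈ NN G :=
  Subgroup.le_topologicalClosure _
    (Subgroup.commutator_mem_commutator (H₁ := (⊤ : Subgroup G)) (H₂ := ⊤) trivial trivial)

/-- a closed subgroup which contains all commutators contains `NN` -/
lemma NN_le {H : Subgroup G} (hH : IsClosed (H : Set G)) (h : ∀ a b : G, cm a b ∈ H) :
    NN G ≤ H := by
  refine Subgroup.topologicalClosure_minimal _ ?_ hH
  rw [commutator_def, Subgroup.commutator_le]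
  intro a _ b _
  exact h a b

/-- `NN` centralises `DD (j+1)` modulo `DD j` -/
lemma cm_DD_NN [T1Space G] (j : ℕ) {g c : G} (hg : g ∈ DD G (j + 1)) (hc : c ∈ NN G) :
    cm g c ∈ DD G j := by
  let H : Subgroup G :=
    { carrier := {c | ∀ g ∈ DD G (j + 1), cm c g ∈ DD G j}
      one_mem' := fun b _ => by rw [cm_one_left]; exact Subgroup.one_mem _
      mul_mem' := fun {a b} ha hb c hc => by
        rw [cm_mul_left]
        exact Subgroup.mul_mem _ (Subgroup.Normal.conj_mem inferInstance _ (hb c hc) a) (ha c hc)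
      inv_mem' := fun {a} ha c hc => by
        rw [cm_inv_left]
        have := Subgroup.Normal.conj_mem (H := DD G j) inferInstance _
          (Subgroup.inv_mem _ (ha c hc)) a⁻¹
        rwa [inv_inv] at this }
  have hH : IsClosed (H : Set G) := by
    have : (H : Set G) =
        ⋂ b : G, ⋂ _ : b ∈ DD G (j + 1), (fun g : G => cm g b) ⁻¹' (DD G j : Set G) := by
      ext g
      simp only [Set.mem_iInter, Set.mem_preimage, SetLike.mem_coe]
      rfl
    rw [this]
    exact isClosed_iInter fun b => isClosed_iInter fun _ =>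
      (isClosed_DD j).preimage (continuous_cm_left _)
  have h1 : NN G ≤ H := NN_le hH fun a b g hg => by
    rw [← cm_inv_eq]
    exact Subgroup.inv_mem _ (hg a b)
  rw [← cm_inv_eq]
  exact Subgroup.inv_mem _ (h1 hc g hg)

/-- `NN ∩ DD j` -/
def WW (G : Type*) [Group G] [TopologicalSpace G] [IsTopologicalGroup G] (j : ℕ) : Subgroup G :=
  NN G ⊓ DD G j

lemma isClosed_WW [T1Space G] (j : ℕ) : IsClosed (WW G j : Set G) := by
  unfold WW
  rw [Subgroup.coe_inf]
  exact isClosed_NN.inter (isClosed_DD j)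

instance WW_normal (j : ℕ) : (WW G j).Normal := Subgroup.normal_inf_normal _ _

lemma WW_zero : WW G 0 = ⊥ := by
  rw [eq_bot_iff]
  intro g hg
  exact Subgroup.mem_bot.2 (mem_DD_zero.1 hg.2)

lemma WW_le_succ (j : ℕ) : WW G j ≤ WW G (j + 1) := inf_le_inf_left _ (DD_le_succ j)

lemma WW_inf (j : ℕ) : WW G (j + 1) ⊓ DD G j = WW G j := by
  unfold WW
  rw [inf_assoc, inf_eq_right.2 (DD_le_succ j)]

lemma WW_le_LL [T1Space G] (j : ℕ) : WW G (j + 1) ≤ LL G j := by
  intro w hw
  refine ⟨hw.2, fun b hb => ?_⟩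
  rw [← cm_inv_eq]
  exact Subgroup.inv_mem _ (cm_DD_NN j hb hw.1)

lemma WW_comm [T1Space G] (j : ℕ) : ∀ a ∈ WW G (j + 1), ∀ b ∈ WW G (j + 1), cm a b ∈ WW G j := by
  intro a ha b hb
  exact ⟨cm_mem_of_left ha.1 b, cm_DD_NN j ha.2 hb.1⟩

/-- the sections `WW (j+1) / WW j` are torsion-free -/
lemma WW_tf [T1Space G] {p : ℕ} (hp : 0 < p) (htf : ∀ (g : G) (n : ℕ), 0 < n → g ^ n = 1 → g = 1)
    (j : ℕ) : ∀ w ∈ WW G (j + 1), w ^ p ∈ DD G j → w ∈ DD G j := by
  induction j with
  | zero =>
    intro w _ hw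
    exact htf w p hp hw
  | succ j ih =>
    intro w hw hwp a b
    set c := cm a b with hc
    have hcN : c ∈ NN G := cm_mem_NN a b
    have hu : cm w c ∈ WW G (j + 1) := ⟨cm_mem_of_left hw.1 c, cm_DD_NN (j + 1) hw.2 hcN⟩
    refine ih _ hu ?_
    -- modulo `DD j`
    have h1 : cm w (cm w c) ∈ DD G j := by
      rw [← cm_inv_eq]
      exact Subgroup.inv_mem _ (cm_DD_NN j hu.2 hw.1)
    have h2 : ∀ n : ℕ, (cm w c ^ n)⁻¹ * cm (w ^ n) c ∈ DD G j := by
      intro n
      induction n with
      | zero => simp [cm_one_left]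
      | succ n ihn =>
        -- `cm (w * w^n) c = w cm(w^n,c) w⁻¹ cm(w,c)`
        let q := QuotientGroup.mk' (DD G j)
        have hq : ∀ x y : G, x⁻¹ * y ∈ DD G j ↔ q x = q y := fun x y => by
          rw [← QuotientGroup.eq]; rfl
        rw [hq] at ihn ⊢
        have h1' : q w * q (cm w c) = q (cm w c) * q w := by
          have h3 : q (cm w (cm w c)) = 1 := (QuotientGroup.eq_one_iff _).2 h1
          have h4 : w * cm w c = cm w (cm w c) * (cm w c * w) := by
            unfold cm; group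
          rw [← map_mul, h4, map_mul, h3, one_mul, map_mul]
        rw [pow_succ' w, cm_mul_left, map_mul, map_mul, map_mul, ← ihn, map_pow, map_pow, map_inv]
        have h5 : Commute (q w) (q (cm w c) ^ n) := Commute.pow_right h1' n
        rw [h5.eq, mul_inv_cancel_right, ← pow_succ]
    have h3 := h2 p
    have h4 : cm (w ^ p) c ∈ DD G j := hwp a b
    have h5 := Subgroup.mul_mem _ h4 (Subgroup.inv_mem _ h3)
    have h6 : cm (w ^ p) c * ((cm w c ^ p)⁻¹ * cm (w ^ p) c)⁻¹ = cm w c ^ p := by group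
    rwa [h6] at h5

end Top

end Pool.Agent.Helper30.ProP
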