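import Pool.Agent.Helper30.ProP.Series
import Pool.Agent.Helper85.ProP.ModUndec

/-!
# Assembly of the (virtually) nilpotent-by-abelian case, from the packets
-/

set_option autoImplicit false
set_option linter.unusedSectionVars false

namespace Pool.Agent.Helper30.ProP

open Pool.Agent.Helper85.ProP Function

section Nilp

variable {G : Type*} [Group G]

/-- if the commutator subgroup is nilpotent, it is contained in some `DD c` -/
lemma lcs_le_DD {c : ℕ} (h : (commutator G).lowerCentralSeries c = ⊥) (j : ℕ) (hj : j ≤ c) :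
    (commutator G).lowerCentralSeries (c - j) ≤ DD G j := by
  induction j with
  | zero =>
    rw [Nat.sub_zero, h]; exact bot_le
  | succ j ih =>
    intro g hg a b
    refine ih (by omega) ?_
    have h1 : c - j = (c - (j + 1)) + 1 := by omega
    rw [h1, Subgroup.lowerCentralSeries_succ]
    exact Subgroup.commutator_mem_commutator hg
      (Subgroup.commutator_mem_commutator (H₁ := (⊤ : Subgroup G)) (H₂ := ⊤) trivial trivial)

lemma NN_le_DD [TopologicalSpace G] [IsTopologicalGroup G] [T1Space G] {c : ℕ}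
    (h : (commutator G).lowerCentralSeries c = ⊥) : NN G ≤ DD G c := by
  refine Subgroup.topologicalClosure_minimal _ ?_ (isClosed_DD c)
  have := lcs_le_DD h c le_rfl
  rwa [Nat.sub_self, Subgroup.lowerCentralSeries_zero] at this

end Nilp

section Rk

variable {G : Type*} [Group G] [TopologicalSpace G] [IsTopologicalGroup G]

lemma RkMod.comp {J K L : Subgroup G} {r s : ℕ} (hKL : RkMod K L r) (hJK : RkMod J K s)
    (hle : K ≤ L) : RkMod J L (r + s) := by
  intro H hH
  obtain ⟨t, ht, ht'⟩ := hKL H hH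
  obtain ⟨u, hu, hu'⟩ := hJK H hH
  refine ⟨Fin.append t u, ?_, ?_⟩
  · intro i
    refine Fin.addCases (fun i => ?_) (fun i => ?_) i
    · rw [Fin.append_left]; exact ht i
    · rw [Fin.append_right]; exact ⟨(hu i).1, hle (hu i).2⟩
  · intro M hM h1 h2
    refine ht' M hM (hu' M hM h1 fun i => ?_) fun i => ?_
    · have := h2 (Fin.natAdd r i)
      rwa [Fin.append_right] at this
    · have := h2 (Fin.castAdd s i)
      rwa [Fin.append_left] at this

lemma RkMod.finRank {r : ℕ} (h : RkMod (⊥ : Subgroup G) ⊤ r) : FinRank G := by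
  refine ⟨r, fun H hH => ?_⟩
  obtain ⟨t, ht, ht'⟩ := h H hH
  refine ⟨t, le_antisymm ?_ ?_⟩
  · refine Subgroup.topologicalClosure_minimal _ ?_ hH
    rw [Subgroup.closure_le]
    rintro _ ⟨i, rfl⟩
    exact (ht i).1
  · have h1 := ht' (Subgroup.closure (Set.range t)).topologicalClosure
      (Subgroup.isClosed_topologicalClosure _) (by simp) (fun i =>
        Subgroup.le_topologicalClosure _ (Subgroup.subset_closure ⟨i, rfl⟩))
    simpa using h1

end Rk

/-- The nilpotent-by-abelian case, from the packets. -/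
theorem nilByAb.{u} (hMax : StmtMax.{u}) (hRk : StmtRk.{u}) (hMod : StmtMod.{u})
    (hgood : StmtGood.{u}) (hHyp : StmtHyp)
    (p : ℕ) [Fact p.Prime] (G : Type u) [Group G] [TopologicalSpace G]
    [IsTopologicalGroup G] [CompactSpace G] [T2Space G] [TotallyDisconnectedSpace G]
    (hPP : PP p G) (hfg : FGG G) (htf : ∀ (g : G) (n : ℕ), 0 < n → g ^ n = 1 → g = 1)
    (hnil : Group.IsNilpotent (commutator G)) (hdec : DecTh G) : FinRank G := by
  obtain ⟨c, hc⟩ := (Subgroup.isNilpotent_iff_lowerCentralSeries _).1 hnil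
  have hNN : NN G ≤ DD G c := NN_le_DD hc
  have hp : 0 < p := (Fact.out : p.Prime).pos
  -- generators
  obtain ⟨S, hS⟩ := hfg
  have hx : Set.range (fun i : Fin S.card => (S.equivFin.symm i : G)) = (S : Set G) := by
    ext g
    constructor
    · rintro ⟨i, rfl⟩
      exact (S.equivFin.symm i).2
    · intro hg
      exact ⟨S.equivFin ⟨g, hg⟩, by simp⟩
  have hxc : (Subgroup.closure (Set.range
      (fun i : Fin S.card => (S.equivFin.symm i : G)))).topologicalClosure = ⊤ := by
    rw [hx]; exact hS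
  have hfg' : FGG G := ⟨S, hS⟩
  -- the whole group is finitely generated as a normal subgroup
  have hgen : ∀ H : Subgroup G, IsClosed (H : Set G) → (S : Set G) ⊆ (H : Set G) → ⊤ ≤ H := by
    intro H hH hSH
    rw [← hS]
    exact Subgroup.topologicalClosure_minimal _ ((Subgroup.closure_le _).2 hSH) hH
  have hmaxT : MaxN (⊤ : Subgroup G) := by
    intro K' _ _ hK'
    have : K' = ⊤ := top_le_iff.1 hK'
    subst this
    exact ⟨S, fun _ _ => trivial, fun H _ hH hSH => hgen H hH hSH⟩
  have hfgT : FGmod (NN G) (⊤ : Subgroup G) :=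
    ⟨S, fun _ _ => trivial, fun H hH _ hSH => hgen H hH hSH⟩
  have hcl : IsClosed ((⊤ : Subgroup G) : Set G) := isClosed_univ
  have hmaxN : MaxN (NN G) := hMax p G hPP hfg' (NN G) ⊤ inferInstance isClosed_NN inferInstance hcl
    le_top (fun a _ b _ => cm_mem_NN a b) hfgT hmaxT
  obtain ⟨r0, hr0⟩ := hRk p G hPP (NN G) ⊤ inferInstance isClosed_NN inferInstance hcl
    le_top (fun a _ b _ => cm_mem_NN a b) hfgT
  have hWc : WW G c = NN G := inf_eq_left.2 hNN
  -- one step down the series
  have key : ∀ j : ℕ, MaxN (WW G (j + 1)) → FGmod (WW G j) (WW G (j + 1)) := by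
    intro j hmax
    have hNFG : NFG (LL G j) := hmax (LL G j) inferInstance (isClosed_LL j) (WW_le_LL j)
    rcases hMod p G hPP S.card _ hxc (DD G j) (LL G j) inferInstance (isClosed_DD j)
      inferInstance (isClosed_LL j) (DD_le_LL j) (LL_comm j) (LL_act j) hNFG (WW G (j + 1))
      (isClosed_WW (j + 1)) (WW_le_LL j) (WW_tf hp htf j) with h | h
    · rwa [WW_inf] at h
    · exfalso
      obtain ⟨M, i1, i2, i3, π, h1, h2, h3, h4, h5, h6⟩ := h
      exact module_undec hgood (hHyp p S.card).1 (d_LL j) (d_DD j) (DD_le_LL j)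
        (fun h a ha => Subgroup.Normal.conj_mem inferInstance a ha h) π h1 h2 h3 h4 h5 h6 hdec
  have main : ∀ i : ℕ, i ≤ c → MaxN (WW G (c - i)) ∧ ∃ r : ℕ, RkMod (WW G (c - i)) ⊤ r := by
    intro i
    induction i with
    | zero =>
      intro _
      rw [Nat.sub_zero, hWc]
      exact ⟨hmaxN, r0, hr0⟩
    | succ i ih =>
      intro hi
      obtain ⟨h1, r, hr⟩ := ih (by omega)
      have e : c - i = (c - (i + 1)) + 1 := by omega
      rw [e] at h1 hr
      set j := c - (i + 1) with hj
      have hF := key j h1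
      refine ⟨hMax p G hPP hfg' (WW G j) (WW G (j + 1)) inferInstance (isClosed_WW j)
        inferInstance (isClosed_WW (j + 1)) (WW_le_succ j) (WW_comm j) hF h1, ?_⟩
      obtain ⟨s, hs⟩ := hRk p G hPP (WW G j) (WW G (j + 1)) inferInstance (isClosed_WW j)
        inferInstance (isClosed_WW (j + 1)) (WW_le_succ j) (WW_comm j) hF
      exact ⟨r + s, hr.comp hs le_top⟩
  obtain ⟨_, r, hr⟩ := main c le_rfl
  rw [Nat.sub_self, WW_zero] at hr
  exact hr.finRank

/-- The virtually nilpotent-by-abelian case, from the packets. -/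
theorem virtNilByAb.{u} (hMax : StmtMax.{u}) (hRk : StmtRk.{u}) (hMod : StmtMod.{u})
    (hgood : StmtGood.{u}) (hHyp : StmtHyp) (hFrat : StmtFrat.{u}) (hRel : StmtRel.{u})
    (hOpen : StmtOpen.{u})
    (p : ℕ) [Fact p.Prime] (G : Type u) [Group G] [TopologicalSpace G]
    [IsTopologicalGroup G] [CompactSpace G] [T2Space G] [TotallyDisconnectedSpace G]
    (hPP : PP p G) (hfg : FGG G) (htf : ∀ (g : G) (n : ℕ), 0 < n → g ^ n = 1 → g = 1)
    (U : Subgroup G) (hU : IsOpen (U : Set G))
    (hnil : Group.IsNilpotent (⁅U, U⁆ : Subgroup G)) (hdec : DecTh G) : FinRank G := by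
  obtain ⟨W, hWn, hWo, hWU, hWd⟩ := hFrat p G hPP hfg U hU
  obtain ⟨h1, h2, h3⟩ := hOpen p G hPP W hWo hWn
  have hWc : IsClosed (W : Set G) := Subgroup.isClosed_of_isOpen W hWo
  have : CompactSpace W := isCompact_iff_compactSpace.1 hWc.isCompact
  refine h3 (nilByAb hMax hRk hMod hgood hHyp p W h1 (h2 hfg) ?_ ?_ (hRel G W hWd hdec))
  · intro g n hn hg
    have := htf (g : G) n hn (by rw [← Subgroup.coe_pow, hg]; rfl)
    exact Subtype.ext this
  · rw [Subgroup.isNilpotent_iff_lowerCentralSeries] at hnil ⊢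
    obtain ⟨n, hn⟩ := hnil
    refine ⟨n, ?_⟩
    rw [← Subgroup.map_subtype_inj, Subgroup.map_bot, Subgroup.map_lowerCentralSeries, eq_bot_iff,
      ← hn]
    refine Subgroup.lowerCentralSeries_mono n ?_
    rw [commutator_def, Subgroup.map_commutator, ← MonoidHom.range_eq_map, Subgroup.range_subtype]
    exact Subgroup.commutator_mono hWU hWU

end Pool.Agent.Helper30.ProP
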