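import Pool.Agent.Helper30.ProP.Assembly
import Pool.Agent.Helper11.ProP2.Frat
import Pool.Agent.Helper17.ProP2.F1
import Pool.Agent.Helper33.ProP2.Mod
import Pool.Agent.Helper51.ProP2.Open
import Pool.Agent.Helper51.ProP2.Rk
import Pool.Agent.Helper90.ProP2.Rel
import Pool.Agent.Helper22.ProP.Good
import Pool.Agent.Helper49.ProP.Point
import Pool.Agent.Helper49.ProP.Hyp
import Pool.Agent.Helper88.ProP.DepMain
import Pool.Agent.Helper89.ProPNorm

/-!
# The (virtually) nilpotent-by-abelian case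
-/

set_option autoImplicit false

namespace Pool.Agent.Helper30.ProP

open Pool.Agent.Helper85.ProP

theorem virtNilByAb_final.{u} (p : ℕ) [Fact p.Prime] (G : Type u) [Group G] [TopologicalSpace G]
    [IsTopologicalGroup G] [CompactSpace G] [T2Space G] [TotallyDisconnectedSpace G]
    (hPP : PP p G) (hfg : FGG G) (htf : ∀ (g : G) (n : ℕ), 0 < n → g ^ n = 1 → g = 1)
    (U : Subgroup G) (hU : IsOpen (U : Set G))
    (hnil : Group.IsNilpotent (⁅U, U⁆ : Subgroup G)) (hdec : DecTh G) : FinRank G :=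
  virtNilByAb Helper17.ProP2.stmtMax Helper51.ProP2.stmtRk Helper33.ProP2.stmtMod
    (Helper22.ProP.stmtGood (Helper88.ProP.stmtDep Helper89.ProPNorm.stmtNorm)
      Helper49.ProP.stmtPoint) Helper49.ProP.stmtHyp Helper11.ProP2.stmtFrat
    Helper90.ProP2.stmtRel Helper51.ProP2.stmtOpen p G hPP hfg htf U hU hnil hdec

end Pool.Agent.Helper30.ProP
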